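import Pool.Agent.Q252.IV4

/-!
# Small residues with small modular inverse: almost all primes

`M n` is the least `m` such that `x y ≡ 1 (mod n)` for some integers `2 ≤ x, y ≤ m`; `Has p T` says that for the
prime `p` some residue `x ≠ 1` and its inverse `y` are at most `T`. The inequality asked for in Q1,
`M_p ≤ p ^ (1/2 + ε)`, holds for all but `O(N ^ (1 - ε) log N)` of the primes (even of all integers) up to `N`.
Moreover `M_p ≤ L √N (log N) ^ 2` for all but a proportion `O(1 / L)` of the primes up to `N`, and `M_n ≤ κ √N` for all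
but a proportion `O(log N / κ)` of the integers `n ≤ N`.
-/

set_option autoImplicit false

namespace Pool.Agent.Results.MP_13d5da_nt.AlmostAllPrimes

/-- the least `m` such that `x y ≡ 1 (mod n)` for some integers `2 ≤ x, y ≤ m` -/
noncomputable def M (n : ℕ) : ℕ :=
  sInf {m : ℕ | ∃ x y : ℕ, 2 ≤ x ∧ x ≤ m ∧ 2 ≤ y ∧ y ≤ m ∧ x * y ≡ 1 [MOD n]}

/-- the statement of the problem for the prime `p`, with the bound `T` -/
def Has (p : ℕ) (T : ℝ) : Prop :=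
  ∃ x y : ℕ, 2 ≤ x ∧ x < p ∧ 1 ≤ y ∧ y < p ∧ (x * y) % p = 1 ∧ ((max x y : ℕ) : ℝ) ≤ T

theorem result :
    -- (1) power saving, primes
    (∀ ε : ℝ, 0 < ε → ε < 1 → ∃ C : ℝ, 0 < C ∧ ∀ N : ℕ, 2 ≤ N →
      (Set.ncard {p : ℕ | p.Prime ∧ p ≤ N ∧ ¬ Has p ((p : ℝ) ^ (1 / 2 + ε))} : ℝ) ≤
        C * (N : ℝ) ^ (1 - ε) * Real.log N) ∧
    -- (2) almost all primes up to powers of the logarithm
    (∃ C : ℝ, 0 < C ∧ ∀ N : ℕ, 2 ≤ N → ∀ L : ℝ, 1 ≤ L →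
      (Set.ncard {p : ℕ | p.Prime ∧ p ≤ N ∧ ¬ Has p (L * √(N : ℝ) * Real.log N ^ 2)} : ℝ) ≤
        1 + C * N / (L * Real.log N)) ∧
    -- (3) power saving, all integers
    (∀ ε : ℝ, 0 < ε → ε < 1 → ∃ C : ℝ, 0 < C ∧ ∀ N : ℕ, 2 ≤ N →
      (Set.ncard {n : ℕ | 1 ≤ n ∧ n ≤ N ∧ (n : ℝ) ^ (1 / 2 + ε) < M n} : ℝ) ≤
        C * (N : ℝ) ^ (1 - ε) * Real.log N) ∧
    -- (4) all integers, general bound
    (∃ C : ℝ, 0 < C ∧ ∀ N : ℕ, 2 ≤ N → ∀ κ : ℝ, 0 < κ →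
      (Set.ncard {n : ℕ | 1 ≤ n ∧ n ≤ N ∧ κ * √(N : ℝ) < M n} : ℝ) ≤ C * N * Real.log N / κ) :=
  ⟨fun _ h0 h1 => Pool.Agent.Q252.IV.primes_power h0 h1, Pool.Agent.Q252.IV.primes_log',
    fun _ h0 h1 => Pool.Agent.Q252.IV.all_power h0 h1, Pool.Agent.Q252.IV.all_real⟩

end Pool.Agent.Results.MP_13d5da_nt.AlmostAllPrimes
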